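import Pool.Agent.Lib_helper10.RX.Lp
import Pool.Agent.Lib_helper10.RY.End
import Pool.Agent.Lib_helper20.GC2.Count

/-!
The bound for the dimension of the intersection, from the partition lemma and the numbers.
-/

set_option linter.unusedSectionVars false

namespace Pool.Agent.RY

open scoped BigOperators Topology
open Module Filter Pool.Agent.KAL

/-- the numbers -/
def NUMS : Prop :=
  ∀ δ D m N : ℕ, 1 ≤ δ → δ ≤ D → GC2.Cnt (δ + 1) m (D - δ + 1) N →
    ∃ U : ℤ → ℕ, Rule δ U ∧ m ≤ U D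

section bd

variable {V : Type} [AddCommGroup V] [Module ℝ V] [FiniteDimensional ℝ V] {r : ℕ}

/-- the bound -/
theorem bound_of (hLP : LPM) (hN : NUMS) {X : Finset V} (hX : Gen X) (hr : 0 < r)
    (hD : 1 ≤ finrank ℝ V) (hn : (r - 1) * finrank ℝ V < X.card) :
    ∃ F : Fin r → Finset V, Cf X F ∧ 1 ≤ finrank ℝ (LL F) ∧
      (finrank ℝ (LL F) = finrank ℝ V ∨ X.card ≤ (r - 1) * finrank ℝ V + finrank ℝ (LL F)) := by
  classical
  obtain ⟨F0, hF0, hmax0⟩ := exists_maxi (fun F : Fin r → Finset V => Cf X F)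
    (fun F => finrank ℝ (LL F)) (finrank ℝ V) (fun F _ => Submodule.finrank_le _)
    ⟨_, (init_state hX hr hn.le).cf⟩
  obtain ⟨FS, hFS, hmaxS⟩ := exists_maxi (fun F : Fin r → Finset V => St X F)
    (fun F => finrank ℝ (LL F)) (finrank ℝ V) (fun F _ => Submodule.finrank_le _)
    ⟨_, init_state hX hr hn.le⟩
  have hk1 : 1 ≤ finrank ℝ (LL F0) := (kap_pos hX hr hD hn hFS hmaxS).trans (hmax0 FS hFS.cf)
  obtain ⟨F1, hF1, hL1, hc1⟩ := thin_cf hF0
  obtain ⟨F, ⟨hF, hFk, hFc⟩, hext⟩ := exists_maxi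
    (fun F : Fin r → Finset V => Cf X F ∧ finrank ℝ (LL F) = finrank ℝ (LL F0) ∧
      ∀ j, (F j).card ≤ finrank ℝ V) (fun F => ∑ j, (F j).card) X.card (by
        intro F h
        have := card_pool h.1.sub h.1.disj
        omega) ⟨F1, hF1, by rw [hL1], hc1⟩
  have hmax : ∀ F' : Fin r → Finset V, Cf X F' → finrank ℝ (LL F') ≤ finrank ℝ (LL F) := by
    intro F' hF'
    rw [hFk]
    exact hmax0 F' hF'
  refine ⟨F, hF, by rw [hFk]; exact hk1, ?_⟩
  rcases eq_or_lt_of_le (Submodule.finrank_le (LL F)) with h1 | h1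
  · left; exact h1
  right
  by_contra hcon
  push Not at hcon
  -- the count
  have hMM := finrank_MM hr (UU F) ⊤
  rw [top_inf_eq, finrank_top] at hMM
  have hLLe : (⨅ j, UU F j) = LL F := rfl
  rw [hLLe] at hMM
  have hpc := card_pool hF.sub hF.disj
  have hsum : ∑ j, finrank ℝ (UU F j) = ∑ j, (F j).card :=
    Finset.sum_congr rfl fun j _ => hX.finrank_span (hF.sub j) (hFc j)
  have hrD : r * finrank ℝ V = (r - 1) * finrank ℝ V + finrank ℝ V := by
    obtain ⟨k, rfl⟩ : ∃ k, r = k + 1 := ⟨r - 1, by omega⟩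
    rw [Nat.add_sub_cancel]; ring
  rw [hsum, hrD] at hMM
  have hq : finrank ℝ (MM (UU F) ⊤) + 1 ≤ (pool X F).card := by omega
  have hSt : St X F := cf_st hX hr hF hmax (by omega)
  obtain ⟨P', hP', hcard⟩ := Finset.exists_subset_card_eq hq
  obtain ⟨c, _, hcmin⟩ := Finset.exists_min_image (Finset.univ : Finset (Fin r))
    (fun j => (F j).card) ⟨⟨0, hr⟩, Finset.mem_univ _⟩
  have hc : (F c).card < finrank ℝ V := by
    by_contra h
    push Not at h
    have h2 : LL F = ⊤ := by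
      rw [LL, iInf_eq_top]
      intro j
      exact hX.UU_eq_top hSt (h.trans (hcmin j (Finset.mem_univ _)))
    rw [h2, finrank_top] at h1
    exact lt_irrefl _ h1
  have hκc : finrank ℝ (LL F) ≤ (F c).card := by
    have h2 : finrank ℝ (UU F c) = (F c).card := hX.finrank_span (hF.sub c) hc.le
    rw [← h2]
    exact Submodule.finrank_mono (iInf_le _ c)
  obtain ⟨KK, S, T, hKK, hKKne, hex, hS, hT, hTT⟩ := data_cf hX hr hF hmax hFc (by
    intro F' hF' hk' hc'
    exact hext F' ⟨hF', hk'.trans hFk, hc'⟩) hc hP' (by omega)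
  obtain ⟨N, hCnt⟩ := GC2.count hKK hKKne (Nat.le_add_left 1 _) hex
    (n := (finrank ℝ V - finrank ℝ (LL F)) - (finrank ℝ V - (F c).card) + 1) (S := S)
    (by omega) T hT hTT
  obtain ⟨W, hW, hm⟩ := hN (finrank ℝ V - (F c).card) (finrank ℝ V - finrank ℝ (LL F)) P'.card N
    (by omega) (by omega) hCnt
  exact lpm_false hLP hX hr hSt hP' hcard hmax h1 hW (fun j => by
    have := hcmin j (Finset.mem_univ _)
    omega) hm

end bd

end Pool.Agent.RY
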