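import Pool.Agent.Lib_helper10.RZ.Close

/-!
Configurations (no spanning hypothesis); a configuration of maximal dimension is a state.
-/

set_option linter.unusedSectionVars false

namespace Pool.Agent.RY

open scoped BigOperators Topology
open Module Filter

section conf

variable {V : Type*} [AddCommGroup V] [Module ℝ V] [FiniteDimensional ℝ V] {r : ℕ}

/-- a configuration: disjoint classes with a common point in the open cones -/
structure Cf (X : Finset V) (F : Fin r → Finset V) : Prop where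
  sub : ∀ j, F j ⊆ X
  disj : ∀ i j, i ≠ j → Disjoint (F i) (F j)
  pos : ∃ z, ∀ j, Rel (F j) z

lemma St.cf {X : Finset V} {F : Fin r → Finset V} (h : St X F) : Cf X F := ⟨h.sub, h.disj, h.pos⟩

/-- the general step, without spanning -/
lemma advance_cf {X : Finset V} {F : Fin r → Finset V} (hF : Cf X F) {R : Finset V}
    (hR : R ⊆ pool X F) (s : V → Fin r) (a : V → ℝ) (ha : ∀ x ∈ R, 0 ≤ a x) (u : V)
    (hu : ∀ j, ∑ x ∈ R.filter (fun x => s x = j), a x • x - u ∈ UU F j)
    (F' : Fin r → Finset V)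
    (hF' : ∀ j x, x ∈ F' j ↔ x ∈ F j ∨ (x ∈ R ∧ s x = j ∧ 0 < a x)) :
    Cf X F' ∧ u ∈ LL F' ∧ LL F ≤ LL F' := by
  classical
  have hU : ∀ j, UU F j ≤ UU F' j := by
    intro j
    apply Submodule.span_mono
    intro x hx
    exact (hF' j x).mpr (Or.inl hx)
  have hsum : ∀ j, ∑ x ∈ R.filter (fun x => s x = j), a x • x
      = ∑ x ∈ R.filter (fun x => s x = j ∧ 0 < a x), a x • x := by
    intro j
    symm
    apply Finset.sum_subset
    · intro x hx
      rw [Finset.mem_filter] at hx ⊢
      exact ⟨hx.1, hx.2.1⟩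
    · intro x hx hx'
      rw [Finset.mem_filter] at hx hx'
      have h1 : ¬ 0 < a x := fun h => hx' ⟨hx.1, hx.2, h⟩
      have h2 : a x = 0 := le_antisymm (not_lt.mp h1) (ha x hx.1)
      rw [h2, zero_smul]
  have hsum_mem : ∀ j, ∑ x ∈ R.filter (fun x => s x = j), a x • x ∈ UU F' j := by
    intro j
    rw [hsum j]
    refine Submodule.sum_mem _ fun x hx => Submodule.smul_mem _ _ (Submodule.subset_span ?_)
    rw [Finset.mem_filter] at hx
    exact (hF' j x).mpr (Or.inr hx)
  have hu' : ∀ j, u ∈ UU F' j := by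
    intro j
    have h1 := (UU F' j).sub_mem (hsum_mem j) (hU j (hu j))
    simpa using h1
  obtain ⟨z, hz⟩ := hF.pos
  have hlin : ∀ j, ∀ᶠ ε in 𝓝[>] (0:ℝ), Rel (F' j) (z + ε • u) := by
    intro j
    have h1 : u - ∑ x ∈ R.filter (fun x => s x = j), a x • x ∈ UU F j := by
      have := (UU F j).neg_mem (hu j)
      simpa using this
    filter_upwards [ev_rel (hz j) h1, self_mem_nhdsWithin] with ε h2 h3
    have h3' : 0 < ε := h3
    obtain ⟨α, hα, hαz⟩ := h2
    refine ⟨fun x => if x ∈ F j then α x else ε * a x, ?_, ?_⟩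
    · intro x hx
      by_cases hxF : x ∈ F j
      · simp only [hxF, if_true]
        exact hα x hxF
      · simp only [hxF, if_false]
        rcases (hF' j x).mp hx with h4 | h4
        · exact absurd h4 hxF
        · exact mul_pos h3' h4.2.2
    · have h4 : F' j = F j ∪ R.filter (fun x => s x = j ∧ 0 < a x) := by
        ext x
        rw [hF' j x, Finset.mem_union, Finset.mem_filter]
      have h5 : Disjoint (F j) (R.filter (fun x => s x = j ∧ 0 < a x)) := by
        rw [Finset.disjoint_left]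
        intro x hx hx'
        rw [Finset.mem_filter] at hx'
        exact (mem_pool.mp (hR hx'.1)).2 j hx
      rw [h4, Finset.sum_union h5]
      have h6 : ∑ x ∈ F j, (if x ∈ F j then α x else ε * a x) • x = ∑ x ∈ F j, α x • x :=
        Finset.sum_congr rfl fun x hx => by rw [if_pos hx]
      have h7 : ∑ x ∈ R.filter (fun x => s x = j ∧ 0 < a x),
          (if x ∈ F j then α x else ε * a x) • x
          = ε • ∑ x ∈ R.filter (fun x => s x = j ∧ 0 < a x), a x • x := by
        rw [Finset.smul_sum]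
        refine Finset.sum_congr rfl fun x hx => ?_
        rw [if_neg (fun h => (Finset.disjoint_left.mp h5) h hx), mul_smul]
      rw [h6, h7, hαz, ← hsum j, smul_sub]
      abel
  obtain ⟨ε, hε⟩ := (eventually_all.mpr hlin).exists
  refine ⟨⟨?_, ?_, ⟨_, hε⟩⟩, ?_, ?_⟩
  · intro j x hx
    rcases (hF' j x).mp hx with h1 | h1
    · exact hF.sub j h1
    · exact (mem_pool.mp (hR h1.1)).1
  · intro i j hij
    rw [Finset.disjoint_left]
    intro x hx hx'
    rcases (hF' i x).mp hx with h1 | h1 <;> rcases (hF' j x).mp hx' with h2 | h2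
    · exact (Finset.disjoint_left.mp (hF.disj i j hij)) h1 h2
    · exact (mem_pool.mp (hR h2.1)).2 i h1
    · exact (mem_pool.mp (hR h1.1)).2 j h2
    · exact hij (h1.2.1.symm.trans h2.2.1)
  · exact Submodule.mem_iInf _ |>.mpr hu'
  · exact iInf_mono hU

/-- the span of all the vectors `io c x`, `x ∈ T` -/
def SS (U : Fin r → Submodule ℝ V) (T : Finset V) : Submodule ℝ (MM U ⊤) :=
  Submodule.span ℝ {v : MM U ⊤ | ∃ x ∈ T, ∃ c, io U ⊤ c x = v}

lemma io_mem_SS {U : Fin r → Submodule ℝ V} {T : Finset V} {x : V} (hx : x ∈ T) (c : Fin r) :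
    io U ⊤ c x ∈ SS U T := Submodule.subset_span ⟨x, hx, c, rfl⟩

/-- the colourful cone lemma inside `SS U T` -/
theorem cov_SS (U : Fin r → Submodule ℝ V) (T Q : Finset V) (hQT : Q ⊆ T)
    (hfr : finrank ℝ (SS U T) ≤ Q.card) (p : MM U ⊤) (hp : p ∈ SS U T) (s0 : V → Fin r)
    (h0 : LinearIndependent ℝ (fun x : {x // x ∈ Q} => io U ⊤ (s0 x) (x : V))) :
    ∃ (s : V → Fin r) (a : V → ℝ),
      LinearIndependent ℝ (fun x : {x // x ∈ Q} => io U ⊤ (s x) (x : V)) ∧
      (∀ x ∈ Q, 0 ≤ a x) ∧ ∑ x ∈ Q, a x • io U ⊤ (s x) x = p := by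
  classical
  let u : {x // x ∈ Q} → Fin r → SS U T := fun x c => ⟨io U ⊤ c (x : V), io_mem_SS (hQT x.2) c⟩
  have hli0 : LinearIndependent ℝ (fun x : {x // x ∈ Q} => u x (s0 x)) := by
    apply LinearIndependent.of_comp (SS U T).subtype
    exact h0
  have hcard : Fintype.card {x // x ∈ Q} = finrank ℝ (SS U T) := by
    apply le_antisymm hli0.fintype_card_le_finrank
    rw [Fintype.card_coe]
    exact hfr
  obtain ⟨s, a, h1, h2, h3⟩ := cov hcard u ⟨p, hp⟩ (by
    intro x
    refine ⟨0, le_rfl, ?_⟩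
    rw [zero_smul]
    apply Subtype.ext
    rw [AddSubmonoidClass.coe_finset_sum, ZeroMemClass.coe_zero]
    change ∑ c, io U ⊤ c (x : V) = 0
    rw [sum_io_same, mk_eq_zero]
    exact ⟨x, trivial, fun j => by simp⟩) (fun x => s0 x) hli0
  refine ⟨fun x => if h : x ∈ Q then s ⟨x, h⟩ else s0 x,
    fun x => if h : x ∈ Q then a ⟨x, h⟩ else 0, ?_, ?_, ?_⟩
  · have h4 : (fun x : {x // x ∈ Q} => io U ⊤
        ((fun x => if h : x ∈ Q then s ⟨x, h⟩ else s0 x) (x : V)) (x : V))
        = fun x : {x // x ∈ Q} => io U ⊤ (s x) (x : V) := by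
      funext x
      simp
    rw [h4]
    exact h1.map' (SS U T).subtype (Submodule.ker_subtype _)
  · intro x hx
    simp only [hx, dif_pos]
    exact h2 _
  · rw [← Finset.sum_coe_sort]
    simp only [Finset.coe_mem, dite_true]
    have h4 := congrArg (SS U T).subtype h3
    rw [map_sum] at h4
    exact h4

open Classical in
/-- if some rows are dependent, the other spans meet in `LL F` only -/
theorem mono_cf {X : Finset V} (hX : Gen X) (hr : 0 < r) {F : Fin r → Finset V} (hF : Cf X F)
    (hmax : ∀ F' : Fin r → Finset V, Cf X F' → finrank ℝ (LL F') ≤ finrank ℝ (LL F))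
    {T : Finset V} (hTP : T ⊆ pool X F) (hlt : finrank ℝ (SS (UU F) T) < T.card)
    (c : Fin r) (hc : UU F c ≠ ⊤) (v : V) (hv : ∀ i, i ≠ c → v ∈ UU F i) : v ∈ UU F c := by
  -- a minimal such set
  obtain ⟨T0, hT0, hmin⟩ := Finset.exists_min_image
    (T.powerset.filter (fun T' => finrank ℝ (SS (UU F) T') < T'.card)) (fun T' => T'.card)
    ⟨T, Finset.mem_filter.mpr ⟨Finset.mem_powerset_self _, hlt⟩⟩
  obtain ⟨hT0T, hT0lt⟩ := Finset.mem_filter.mp hT0
  rw [Finset.mem_powerset] at hT0T
  have hT0P : T0 ⊆ pool X F := hT0T.trans hTP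
  obtain ⟨y, hy⟩ : T0.Nonempty := Finset.card_pos.mp (by omega)
  set Q := T0.erase y with hQ
  have hQT0 : Q ⊆ T0 := Finset.erase_subset _ _
  have hyQ : y ∉ Q := Finset.notMem_erase _ _
  have hQcard : Q.card + 1 = T0.card := Finset.card_erase_add_one hy
  have hyP : y ∈ pool X F := hT0P hy
  obtain ⟨s0, hs0⟩ := rado_MM hr (UU F) ⊤ Q (by
    intro T' hT' _
    by_contra hcon
    push Not at hcon
    have h1 := hmin T' (Finset.mem_filter.mpr
      ⟨Finset.mem_powerset.mpr ((hT'.trans hQT0).trans hT0T), hcon⟩)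
    have h2 := Finset.card_le_card hT'
    omega)
  obtain ⟨s1, a1, hli1, ha1, hsum1⟩ := cov_SS (UU F) T0 Q hQT0 (by omega)
    (- io (UU F) ⊤ c y) (Submodule.neg_mem _ (io_mem_SS hy c)) s0 hs0
  set R := insert y Q with hR
  let s : V → Fin r := fun x => if x = y then c else s1 x
  let a : V → ℝ := fun x => if x = y then 1 else a1 x
  have hxy : ∀ x ∈ Q, x ≠ y := fun x hx h => hyQ (h ▸ hx)
  have hsQ : ∀ x ∈ Q, s x = s1 x := fun x hx => by simp only [s, if_neg (hxy x hx)]
  have haQ : ∀ x ∈ Q, a x = a1 x := fun x hx => by simp only [a, if_neg (hxy x hx)]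
  have hsy : s y = c := by simp only [s, if_true]
  have hay : a y = 1 := by simp only [a, if_true]
  have hRP : R ⊆ pool X F := by
    intro x hx
    rcases Finset.mem_insert.mp hx with rfl | hx
    · exact hyP
    · exact hT0P (hQT0 hx)
  have haR : ∀ x ∈ R, 0 ≤ a x := by
    intro x hx
    rcases Finset.mem_insert.mp hx with rfl | hx
    · rw [hay]; exact zero_le_one
    · rw [haQ x hx]; exact ha1 x hx
  have hsumR : ∑ x ∈ R, a x • io (UU F) ⊤ (s x) x = 0 := by
    rw [hR, Finset.sum_insert hyQ, hay, hsy, one_smul]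
    have : ∑ x ∈ Q, a x • io (UU F) ⊤ (s x) x = ∑ x ∈ Q, a1 x • io (UU F) ⊤ (s1 x) x :=
      Finset.sum_congr rfl fun x hx => by rw [haQ x hx, hsQ x hx]
    rw [this, hsum1, add_neg_cancel]
  obtain ⟨u, _, hu⟩ := col_eq (UU F) ⊤ R s a 0 (by rw [hsumR, map_zero, map_zero])
  simp only [zero_add] at hu
  let F' : Fin r → Finset V := fun j => F j ∪ R.filter (fun x => s x = j ∧ 0 < a x)
  have hF' : ∀ j x, x ∈ F' j ↔ x ∈ F j ∨ (x ∈ R ∧ s x = j ∧ 0 < a x) := by
    intro j x
    simp [F']
  obtain ⟨hSt, huL, hLL⟩ := advance_cf hF hRP s a haR u hu F' hF'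
  have hLeq : LL F = LL F' := Submodule.eq_of_le_of_finrank_le hLL (hmax F' hSt)
  rw [← hLeq] at huL
  have huj : ∀ j, u ∈ UU F j := fun j => (Submodule.mem_iInf _).mp huL j
  have hcls : ∀ j, ∑ x ∈ R.filter (fun x => s x = j), a x • x ∈ UU F j := by
    intro j
    have := (UU F j).add_mem (hu j) (huj j)
    simpa using this
  set K := R.filter (fun x => s x = c ∧ 0 < a x) with hK
  have hyK : y ∈ K := by
    rw [hK, Finset.mem_filter]
    exact ⟨Finset.mem_insert_self _ _, hsy, by rw [hay]; exact one_pos⟩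
  have hKP : K ⊆ pool X F := (Finset.filter_subset _ _).trans hRP
  have hKX : K ⊆ X := fun x hx => (mem_pool.mp (hKP hx)).1
  have hKsum : ∑ x ∈ K, a x • x ∈ UU F c := by
    have h1 := hcls c
    have h2 : ∑ x ∈ K, a x • x = ∑ x ∈ R.filter (fun x => s x = c), a x • x := by
      apply Finset.sum_subset
      · intro x hx
        rw [hK, Finset.mem_filter] at hx
        exact Finset.mem_filter.mpr ⟨hx.1, hx.2.1⟩
      · intro x hx hx'
        rw [Finset.mem_filter] at hx
        have h3 : ¬ 0 < a x := fun h => hx' (Finset.mem_filter.mpr ⟨hx.1, hx.2, h⟩)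
        have h4 : a x = 0 := le_antisymm (not_lt.mp h3) (haR x hx.1)
        rw [h4, zero_smul]
    rw [h2]
    exact h1
  have hdisjK : Disjoint (F c) K := by
    rw [Finset.disjoint_left]
    intro x hx hx'
    exact (mem_pool.mp (hKP hx')).2 c hx
  have hFc : (F c).card < finrank ℝ V := hX.card_lt (hF.sub c) hc
  have hlow : finrank ℝ V + 1 ≤ K.card + (F c).card := by
    by_contra hcon
    push Not at hcon
    have h1 := hX.disj_span (hF.sub c) hKX hdisjK (by omega)
    have h2 : ∑ x ∈ K, a x • x ∈ Submodule.span ℝ (K : Set V) :=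
      mem_span_iff.mpr ⟨a, rfl⟩
    have h3 := Submodule.disjoint_def.mp h1 _ hKsum h2
    have h4 := coeff_zero (hX.ind K hKX (by omega)) a h3 y hyK
    rw [hay] at h4
    exact one_ne_zero h4
  have hKe : K.erase y ⊆ Q.filter (fun x => s1 x = c) := by
    intro x hx
    obtain ⟨h1, h2⟩ := Finset.mem_erase.mp hx
    rw [hK, Finset.mem_filter] at h2
    have h3 : x ∈ Q := (Finset.mem_insert.mp h2.1).resolve_left h1
    exact Finset.mem_filter.mpr ⟨h3, by rw [← hsQ x h3]; exact h2.2.1⟩
  have hliK : LinearIndependent ℝ (fun x : {x // x ∈ K.erase y} => io (UU F) ⊤ c (x : V)) := by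
    let e : {x // x ∈ K.erase y} → {x // x ∈ Q} :=
      fun x => ⟨x.1, (Finset.mem_filter.mp (hKe x.2)).1⟩
    have he : Function.Injective e := by
      intro x x' h
      apply Subtype.ext
      exact congrArg (fun t : {x // x ∈ Q} => (t : V)) h
    have h1 := hli1.comp e he
    have h2 : (fun x : {x // x ∈ Q} => io (UU F) ⊤ (s1 x) (x : V)) ∘ e
        = fun x : {x // x ∈ K.erase y} => io (UU F) ⊤ c (x : V) := by
      funext x
      simp only [Function.comp_apply, e]
      rw [(Finset.mem_filter.mp (hKe x.2)).2]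
    rwa [h2] at h1
  have hup := card_le_of_li (io (UU F) ⊤ c) (K.erase y) hliK
  rw [Finset.card_erase_of_mem hyK] at hup
  have hker : UU F c ≤ LinearMap.ker (io (UU F) ⊤ c) := by
    intro v hv
    exact io_eq_zero_of_mem hv
  have hkr := Submodule.finrank_mono hker
  have hfr : finrank ℝ (UU F c) = (F c).card := hX.finrank_span (hF.sub c) hFc.le
  have hKpos : 0 < K.card := Finset.card_pos.mpr ⟨y, hyK⟩
  have hkereq : UU F c = LinearMap.ker (io (UU F) ⊤ c) :=
    Submodule.eq_of_le_of_finrank_le hker (by omega)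
  rw [hkereq, LinearMap.mem_ker, io_eq_zero_iff]
  exact ⟨v, trivial, by simp, fun k hk => hv k hk⟩

open Classical in
/-- the rows of the pool are in general position in the sense of Rado -/
theorem rado_cf {X : Finset V} (hX : Gen X) (hr : 0 < r) {F : Fin r → Finset V} (hF : Cf X F)
    (hmax : ∀ F' : Fin r → Finset V, Cf X F' → finrank ℝ (LL F') ≤ finrank ℝ (LL F))
    {Q : Finset V} (hQ : Q ⊆ pool X F) (hQc : Q.card ≤ finrank ℝ (MM (UU F) ⊤)) :
    ∃ s : V → Fin r, LinearIndependent ℝ (fun x : {x // x ∈ Q} => io (UU F) ⊤ (s x) (x : V)) := by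
  apply rado_MM hr
  intro T hT hTne
  by_contra hcon
  push Not at hcon
  change finrank ℝ (SS (UU F) T) < T.card at hcon
  have hTP : T ⊆ pool X F := hT.trans hQ
  have hTX : T ⊆ X := fun x hx => (mem_pool.mp (hTP hx)).1
  have hmono := mono_cf hX hr hF hmax hTP hcon
  have hTpos : 0 < T.card := Finset.card_pos.mpr hTne
  have hdT : ∀ i, Disjoint (F i) T := by
    intro i
    rw [Finset.disjoint_left]
    intro x hx hx'
    exact (mem_pool.mp (hTP hx')).2 i hx
  by_cases h : ∃ i, (F i).card + T.card ≤ finrank ℝ V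
  · obtain ⟨i, hi⟩ := h
    have hd := hX.disj_span (hF.sub i) hTX (hdT i) hi
    have hci : UU F i ≠ ⊤ := by
      intro h1
      have h2 := hX.finrank_span (hF.sub i) (by omega : (F i).card ≤ finrank ℝ V)
      change finrank ℝ (UU F i) = _ at h2
      rw [h1, finrank_top] at h2
      omega
    have hli : LinearIndependent ℝ (fun x : {x // x ∈ T} => io (UU F) ⊤ i (x : V)) := by
      rw [Fintype.linearIndependent_iff]
      intro g hg
      have h1 : io (UU F) ⊤ i (∑ x : {x // x ∈ T}, g x • (x : V)) = 0 := by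
        rw [map_sum, ← hg]
        exact Finset.sum_congr rfl fun x _ => by rw [map_smul]
      rw [io_eq_zero_iff] at h1
      obtain ⟨w, _, hw1, hw2⟩ := h1
      have h2 : w ∈ UU F i := hmono i hci w hw2
      have h3 : ∑ x : {x // x ∈ T}, g x • (x : V) ∈ UU F i := by
        have := (UU F i).add_mem hw1 h2
        simpa using this
      have h4 : ∑ x : {x // x ∈ T}, g x • (x : V) ∈ Submodule.span ℝ (T : Set V) :=
        Submodule.sum_mem _ fun x _ => Submodule.smul_mem _ _ (Submodule.subset_span x.2)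
      have h5 := Submodule.disjoint_def.mp hd _ h3 h4
      exact Fintype.linearIndependent_iff.mp (hX.ind T hTX (by omega)) g h5
    have h1 := finrank_span_eq_card hli
    rw [Fintype.card_coe] at h1
    have h2 : finrank ℝ (Submodule.span ℝ (Set.range
        (fun x : {x // x ∈ T} => io (UU F) ⊤ i (x : V)))) ≤ finrank ℝ (SS (UU F) T) := by
      apply Submodule.finrank_mono
      apply Submodule.span_mono
      rintro _ ⟨x, rfl⟩
      exact ⟨x, x.2, i, rfl⟩
    omega
  · push Not at h
    have htop' : SS (UU F) T = ⊤ := by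
      rw [eq_top_iff]
      intro v _
      obtain ⟨w, rfl⟩ := Submodule.mkQ_surjective _ v
      rw [← sum_io]
      refine Submodule.sum_mem _ fun j _ => ?_
      have h1 : Submodule.span ℝ ((F j ∪ T : Finset V) : Set V) = ⊤ := by
        apply hX.span_eq_top (Finset.union_subset (hF.sub j) hTX)
        rw [Finset.card_union_of_disjoint (hdT j)]
        exact (h j).le
      have h2 : w j ∈ Submodule.span ℝ ((F j ∪ T : Finset V) : Set V) := by
        rw [h1]; trivial
      obtain ⟨b, hb⟩ := mem_span_iff.mp h2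
      rw [← hb, map_sum]
      refine Submodule.sum_mem _ fun x hx => ?_
      rw [map_smul]
      apply Submodule.smul_mem
      rcases Finset.mem_union.mp hx with hx | hx
      · rw [io_eq_zero_of_mem]
        · exact Submodule.zero_mem _
        · exact Submodule.subset_span hx
      · exact io_mem_SS hx j
    rw [htop', finrank_top] at hcon
    have := Finset.card_le_card hT
    omega

/-- a configuration of maximal dimension with enough points is a state -/
theorem cf_st {X : Finset V} (hX : Gen X) (hr : 0 < r) {F : Fin r → Finset V} (hF : Cf X F)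
    (hmax : ∀ F' : Fin r → Finset V, Cf X F' → finrank ℝ (LL F') ≤ finrank ℝ (LL F))
    (hq : finrank ℝ (MM (UU F) ⊤) ≤ (pool X F).card) : St X F := by
  obtain ⟨Q, hQ, hQc⟩ := Finset.exists_subset_card_eq hq
  obtain ⟨s, hs⟩ := rado_cf hX hr hF hmax hQ hQc.le
  refine ⟨hF.sub, hF.disj, hF.pos, ⟨s, ?_⟩⟩
  rw [eq_top_iff, ← span_of_li (UU F) ⊤ Q s hQc hs]
  apply Submodule.span_mono
  rintro _ ⟨x, hx, rfl⟩
  exact ⟨x, hQ hx, rfl⟩

end conf

end Pool.Agent.RY
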