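import Pool.Agent.Lib_helper10.RX.Ties

/-!
The positive circuits of the rows in an extremal configuration and their tie sets.
-/

set_option linter.unusedSectionVars false

namespace Pool.Agent.RY

open scoped BigOperators Topology
open Module Filter

section data

variable {V : Type*} [AddCommGroup V] [Module ℝ V] [FiniteDimensional ℝ V] {r : ℕ}

open Classical in
/-- dependent rows contain a positive circuit for every colour -/
theorem circ_cf {X : Finset V} (hX : Gen X) (hr : 0 < r) {F : Fin r → Finset V} (hF : Cf X F)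
    (hmax : ∀ F' : Fin r → Finset V, Cf X F' → finrank ℝ (LL F') ≤ finrank ℝ (LL F))
    {T : Finset V} (hTP : T ⊆ pool X F) (hlt : finrank ℝ (SS (UU F) T) < T.card)
    (c : Fin r) (hc : UU F c ≠ ⊤) :
    ∃ K ⊆ T, K.card + (F c).card = finrank ℝ V + 1 ∧
      ∃ b : V → ℝ, (∀ x ∈ K, 0 < b x) ∧ ∑ x ∈ K, b x • x ∈ UU F c := by
  obtain ⟨T0, hT0, hmin⟩ := Finset.exists_min_image
    (T.powerset.filter (fun T' => finrank ℝ (SS (UU F) T') < T'.card)) (fun T' => T'.card)
    ⟨T, Finset.mem_filter.mpr ⟨Finset.mem_powerset_self _, hlt⟩⟩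
  obtain ⟨hT0T, hT0lt⟩ := Finset.mem_filter.mp hT0
  rw [Finset.mem_powerset] at hT0T
  have hT0P : T0 ⊆ pool X F := hT0T.trans hTP
  obtain ⟨y, hy⟩ : T0.Nonempty := Finset.card_pos.mp (by omega)
  set Q := T0.erase y with hQ
  have hQT0 : Q ⊆ T0 := Finset.erase_subset _ _
  have hyQ : y ∉ Q := Finset.notMem_erase _ _
  have hQcard : Q.card + 1 = T0.card := Finset.card_erase_add_one hy
  have hyP : y ∈ pool X F := hT0P hy
  obtain ⟨s0, hs0⟩ := rado_MM hr (UU F) ⊤ Q (by
    intro T' hT' _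
    by_contra hcon
    push Not at hcon
    have h1 := hmin T' (Finset.mem_filter.mpr
      ⟨Finset.mem_powerset.mpr ((hT'.trans hQT0).trans hT0T), hcon⟩)
    have h2 := Finset.card_le_card hT'
    omega)
  obtain ⟨s1, a1, hli1, ha1, hsum1⟩ := cov_SS (UU F) T0 Q hQT0 (by omega)
    (- io (UU F) ⊤ c y) (Submodule.neg_mem _ (io_mem_SS hy c)) s0 hs0
  set R := insert y Q with hR
  let s : V → Fin r := fun x => if x = y then c else s1 x
  let a : V → ℝ := fun x => if x = y then 1 else a1 x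
  have hxy : ∀ x ∈ Q, x ≠ y := fun x hx h => hyQ (h ▸ hx)
  have hsQ : ∀ x ∈ Q, s x = s1 x := fun x hx => by simp only [s, if_neg (hxy x hx)]
  have haQ : ∀ x ∈ Q, a x = a1 x := fun x hx => by simp only [a, if_neg (hxy x hx)]
  have hsy : s y = c := by simp only [s, if_true]
  have hay : a y = 1 := by simp only [a, if_true]
  have hRT0 : R ⊆ T0 := by
    intro x hx
    rcases Finset.mem_insert.mp hx with rfl | hx
    · exact hy
    · exact hQT0 hx
  have hRP : R ⊆ pool X F := hRT0.trans hT0P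
  have haR : ∀ x ∈ R, 0 ≤ a x := by
    intro x hx
    rcases Finset.mem_insert.mp hx with rfl | hx
    · rw [hay]; exact zero_le_one
    · rw [haQ x hx]; exact ha1 x hx
  have hsumR : ∑ x ∈ R, a x • io (UU F) ⊤ (s x) x = 0 := by
    rw [hR, Finset.sum_insert hyQ, hay, hsy, one_smul]
    have : ∑ x ∈ Q, a x • io (UU F) ⊤ (s x) x = ∑ x ∈ Q, a1 x • io (UU F) ⊤ (s1 x) x :=
      Finset.sum_congr rfl fun x hx => by rw [haQ x hx, hsQ x hx]
    rw [this, hsum1, add_neg_cancel]
  obtain ⟨u, _, hu⟩ := col_eq (UU F) ⊤ R s a 0 (by rw [hsumR, map_zero, map_zero])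
  simp only [zero_add] at hu
  let F' : Fin r → Finset V := fun j => F j ∪ R.filter (fun x => s x = j ∧ 0 < a x)
  have hF' : ∀ j x, x ∈ F' j ↔ x ∈ F j ∨ (x ∈ R ∧ s x = j ∧ 0 < a x) := by
    intro j x
    simp [F']
  obtain ⟨hSt, huL, hLL⟩ := advance_cf hF hRP s a haR u hu F' hF'
  have hLeq : LL F = LL F' := Submodule.eq_of_le_of_finrank_le hLL (hmax F' hSt)
  rw [← hLeq] at huL
  have huj : ∀ j, u ∈ UU F j := fun j => (Submodule.mem_iInf _).mp huL j
  have hcls : ∀ j, ∑ x ∈ R.filter (fun x => s x = j), a x • x ∈ UU F j := by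
    intro j
    have := (UU F j).add_mem (hu j) (huj j)
    simpa using this
  set K := R.filter (fun x => s x = c ∧ 0 < a x) with hK
  have hyK : y ∈ K := by
    rw [hK, Finset.mem_filter]
    exact ⟨Finset.mem_insert_self _ _, hsy, by rw [hay]; exact one_pos⟩
  have hKP : K ⊆ pool X F := (Finset.filter_subset _ _).trans hRP
  have hKX : K ⊆ X := fun x hx => (mem_pool.mp (hKP hx)).1
  have hKsum : ∑ x ∈ K, a x • x ∈ UU F c := by
    have h1 := hcls c
    have h2 : ∑ x ∈ K, a x • x = ∑ x ∈ R.filter (fun x => s x = c), a x • x := by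
      apply Finset.sum_subset
      · intro x hx
        rw [hK, Finset.mem_filter] at hx
        exact Finset.mem_filter.mpr ⟨hx.1, hx.2.1⟩
      · intro x hx hx'
        rw [Finset.mem_filter] at hx
        have h3 : ¬ 0 < a x := fun h => hx' (Finset.mem_filter.mpr ⟨hx.1, hx.2, h⟩)
        have h4 : a x = 0 := le_antisymm (not_lt.mp h3) (haR x hx.1)
        rw [h4, zero_smul]
    rw [h2]
    exact h1
  have hdisjK : Disjoint (F c) K := by
    rw [Finset.disjoint_left]
    intro x hx hx'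
    exact (mem_pool.mp (hKP hx')).2 c hx
  have hFc : (F c).card < finrank ℝ V := hX.card_lt (hF.sub c) hc
  have hlow : finrank ℝ V + 1 ≤ K.card + (F c).card := by
    by_contra hcon
    push Not at hcon
    have h1 := hX.disj_span (hF.sub c) hKX hdisjK (by omega)
    have h2 : ∑ x ∈ K, a x • x ∈ Submodule.span ℝ (K : Set V) :=
      mem_span_iff.mpr ⟨a, rfl⟩
    have h3 := Submodule.disjoint_def.mp h1 _ hKsum h2
    have h4 := coeff_zero (hX.ind K hKX (by omega)) a h3 y hyK
    rw [hay] at h4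
    exact one_ne_zero h4
  have hKe : K.erase y ⊆ Q.filter (fun x => s1 x = c) := by
    intro x hx
    obtain ⟨h1, h2⟩ := Finset.mem_erase.mp hx
    rw [hK, Finset.mem_filter] at h2
    have h3 : x ∈ Q := (Finset.mem_insert.mp h2.1).resolve_left h1
    exact Finset.mem_filter.mpr ⟨h3, by rw [← hsQ x h3]; exact h2.2.1⟩
  have hliK : LinearIndependent ℝ (fun x : {x // x ∈ K.erase y} => io (UU F) ⊤ c (x : V)) := by
    let e : {x // x ∈ K.erase y} → {x // x ∈ Q} :=
      fun x => ⟨x.1, (Finset.mem_filter.mp (hKe x.2)).1⟩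
    have he : Function.Injective e := by
      intro x x' h
      apply Subtype.ext
      exact congrArg (fun t : {x // x ∈ Q} => (t : V)) h
    have h1 := hli1.comp e he
    have h2 : (fun x : {x // x ∈ Q} => io (UU F) ⊤ (s1 x) (x : V)) ∘ e
        = fun x : {x // x ∈ K.erase y} => io (UU F) ⊤ c (x : V) := by
      funext x
      simp only [Function.comp_apply, e]
      rw [(Finset.mem_filter.mp (hKe x.2)).2]
    rwa [h2] at h1
  have hup := card_le_of_li (io (UU F) ⊤ c) (K.erase y) hliK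
  rw [Finset.card_erase_of_mem hyK] at hup
  have hker : UU F c ≤ LinearMap.ker (io (UU F) ⊤ c) := by
    intro v hv
    exact io_eq_zero_of_mem hv
  have hkr := Submodule.finrank_mono hker
  have hfr : finrank ℝ (UU F c) = (F c).card := hX.finrank_span (hF.sub c) hFc.le
  have hKpos : 0 < K.card := Finset.card_pos.mpr ⟨y, hyK⟩
  exact ⟨K, ((Finset.filter_subset _ _).trans hRT0).trans hT0T, by omega, a,
    fun x hx => (Finset.mem_filter.mp hx).2.2, hKsum⟩

/-- relations modulo a span -/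
lemma rel_zero {X : Finset V} (hX : Gen X) {S K : Finset V} (hS : S ⊆ X) (hK : K ⊆ X)
    (hd : Disjoint S K) (hc : S.card + K.card ≤ finrank ℝ V) (w : V → ℝ)
    (hw : ∑ x ∈ K, w x • x ∈ Submodule.span ℝ (S : Set V)) : ∀ x ∈ K, w x = 0 := by
  have h1 := hX.disj_span hS hK hd hc
  have h2 := Submodule.disjoint_def.mp h1 _ hw (mem_span_iff.mpr ⟨w, rfl⟩)
  exact coeff_zero (hX.ind K hK (by omega)) w h2

open Classical in
/-- at most one exchange -/
lemma exch_uniq {X : Finset V} (hX : Gen X) {S K : Finset V} (hS : S ⊆ X) (hK : K ⊆ X)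
    (hKc : K.card + S.card = finrank ℝ V + 1) (hd : Disjoint S K)
    {b : V → ℝ} (hb : ∀ x ∈ K, 0 < b x) (hbs : ∑ x ∈ K, b x • x ∈ Submodule.span ℝ (S : Set V))
    {y : V} (hyK : y ∉ K) {x1 x2 : V} (hx1 : x1 ∈ K) (hx2 : x2 ∈ K) {b1 b2 : V → ℝ}
    (hb1 : ∀ x ∈ insert y (K.erase x1), 0 < b1 x)
    (hbs1 : ∑ x ∈ insert y (K.erase x1), b1 x • x ∈ Submodule.span ℝ (S : Set V))
    (hb2 : ∀ x ∈ insert y (K.erase x2), 0 < b2 x)
    (hbs2 : ∑ x ∈ insert y (K.erase x2), b2 x • x ∈ Submodule.span ℝ (S : Set V)) :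
    x1 = x2 := by
  by_contra hne
  have hy1 : 0 < b1 y := hb1 y (Finset.mem_insert_self _ _)
  have hy2 : 0 < b2 y := hb2 y (Finset.mem_insert_self _ _)
  have hx21 : 0 < b1 x2 := hb1 x2 (Finset.mem_insert_of_mem
    (Finset.mem_erase.mpr ⟨fun h => hne h.symm, hx2⟩))
  have hx12 : 0 < b2 x1 := hb2 x1 (Finset.mem_insert_of_mem (Finset.mem_erase.mpr ⟨hne, hx1⟩))
  have hbx1 := hb x1 hx1
  have hyE1 : y ∉ K.erase x1 := fun h => hyK (Finset.mem_of_mem_erase h)
  have hyE2 : y ∉ K.erase x2 := fun h => hyK (Finset.mem_of_mem_erase h)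
  -- the relation without y
  let c1 : V → ℝ := fun x => if x = x1 then 0 else b1 x
  let c2 : V → ℝ := fun x => if x = x2 then 0 else b2 x
  have e1 : ∑ x ∈ insert y (K.erase x1), b1 x • x = b1 y • y + ∑ x ∈ K, c1 x • x := by
    rw [Finset.sum_insert hyE1, ← Finset.add_sum_erase K _ hx1]
    simp only [c1, if_true, zero_smul, zero_add]
    congr 1
    exact Finset.sum_congr rfl fun x hx => by rw [if_neg (Finset.mem_erase.mp hx).1]
  have e2 : ∑ x ∈ insert y (K.erase x2), b2 x • x = b2 y • y + ∑ x ∈ K, c2 x • x := by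
    rw [Finset.sum_insert hyE2, ← Finset.add_sum_erase K _ hx2]
    simp only [c2, if_true, zero_smul, zero_add]
    congr 1
    exact Finset.sum_congr rfl fun x hx => by rw [if_neg (Finset.mem_erase.mp hx).1]
  rw [e1] at hbs1
  rw [e2] at hbs2
  set t := (b1 y * b2 x1) / b x1 with ht
  have htpos : 0 < t := div_pos (mul_pos hy1 hx12) hbx1
  -- w = b2(y) c1 - b1(y) c2 + t b, zero at x1
  let w : V → ℝ := fun x => b2 y * c1 x - b1 y * c2 x + t * b x
  have hw1 : w x1 = 0 := by
    have h1 : c1 x1 = 0 := by simp only [c1, if_true]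
    have h2 : c2 x1 = b2 x1 := by simp only [c2, if_neg hne]
    change b2 y * c1 x1 - b1 y * c2 x1 + t * b x1 = 0
    rw [h1, h2, ht]
    field_simp
    ring
  have hws : ∑ x ∈ K, w x • x ∈ Submodule.span ℝ (S : Set V) := by
    have h1 := Submodule.add_mem _ (Submodule.sub_mem _ (Submodule.smul_mem _ (b2 y) hbs1)
      (Submodule.smul_mem _ (b1 y) hbs2)) (Submodule.smul_mem _ t hbs)
    have h2 : ∑ x ∈ K, w x • x = b2 y • (b1 y • y + ∑ x ∈ K, c1 x • x)
        - b1 y • (b2 y • y + ∑ x ∈ K, c2 x • x) + t • ∑ x ∈ K, b x • x := by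
      have h3 : ∑ x ∈ K, w x • x = b2 y • ∑ x ∈ K, c1 x • x - b1 y • ∑ x ∈ K, c2 x • x
          + t • ∑ x ∈ K, b x • x := by
        simp only [w, add_smul, sub_smul, mul_smul, Finset.sum_add_distrib,
          Finset.sum_sub_distrib, Finset.smul_sum]
      rw [h3, smul_add, smul_add, smul_smul, smul_smul, mul_comm (b2 y) (b1 y)]
      abel
    rw [h2]
    exact h1
  have hws' : ∑ x ∈ K.erase x1, w x • x ∈ Submodule.span ℝ (S : Set V) := by
    rw [← Finset.add_sum_erase K _ hx1, hw1, zero_smul, zero_add] at hws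
    exact hws
  have hKpos : 0 < K.card := Finset.card_pos.mpr ⟨x1, hx1⟩
  have h0 := rel_zero hX hS ((Finset.erase_subset _ _).trans hK)
    (hd.mono_right (Finset.erase_subset _ _))
    (by rw [Finset.card_erase_of_mem hx1]; omega) w hws' x2
    (Finset.mem_erase.mpr ⟨fun h => hne h.symm, hx2⟩)
  have h1 : c1 x2 = b1 x2 := by simp only [c1, if_neg (fun h : x2 = x1 => hne h.symm)]
  have h2 : c2 x2 = 0 := by simp only [c2, if_true]
  change b2 y * c1 x2 - b1 y * c2 x2 + t * b x2 = 0 at h0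
  rw [h1, h2] at h0
  have h3 := mul_pos hy2 hx21
  have h4 := mul_pos htpos (hb x2 hx2)
  linarith

open Classical in
/-- the data of an extremal configuration -/
theorem data_cf {X : Finset V} (hX : Gen X) (hr : 0 < r) {F : Fin r → Finset V} (hF : Cf X F)
    (hmax : ∀ F' : Fin r → Finset V, Cf X F' → finrank ℝ (LL F') ≤ finrank ℝ (LL F))
    (hle : ∀ j, (F j).card ≤ finrank ℝ V)
    (hext : ∀ F' : Fin r → Finset V, Cf X F' → finrank ℝ (LL F') = finrank ℝ (LL F) →
      (∀ j, (F' j).card ≤ finrank ℝ V) → ∑ j, (F' j).card ≤ ∑ j, (F j).card)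
    {c : Fin r} (hc : (F c).card < finrank ℝ V) {P : Finset V} (hP : P ⊆ pool X F)
    (hcard : finrank ℝ (MM (UU F) ⊤) < P.card) :
    ∃ (KK : Finset (Finset V)) (S : Finset (Option V)) (T : Finset V → Finset (Option V)),
      (∀ K ∈ KK, K ⊆ P ∧ K.card = finrank ℝ V - (F c).card + 1) ∧ KK.Nonempty ∧
      (∀ K ∈ KK, ∀ y ∈ P, y ∉ K → ∃! x, x ∈ K ∧ insert y (K.erase x) ∈ KK) ∧
      S.card + finrank ℝ (LL F) ≤ (F c).card + 1 ∧
      (∀ K ∈ KK, T K ⊆ S ∧ finrank ℝ V - (F c).card + 1 ≤ (T K).card) ∧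
      (∀ K ∈ KK, ∀ K' ∈ KK, K ≠ K' → (T K ∩ T K').card ≤ (K' \ K).card) := by
  have hUc : UU F c ≠ ⊤ := by
    intro h1
    have h2 : finrank ℝ (UU F c) = (F c).card := hX.finrank_span (hF.sub c) hc.le
    rw [h1, finrank_top] at h2
    omega
  have hPX : ∀ x ∈ pool X F, x ∈ X := fun x hx => (mem_pool.mp hx).1
  have hdis : ∀ K ⊆ pool X F, Disjoint (F c) K := by
    intro K hK
    rw [Finset.disjoint_left]
    intro x hx hx'
    exact (mem_pool.mp (hK hx')).2 c hx
  set KK : Finset (Finset V) := P.powerset.filter (fun K =>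
    K.card + (F c).card = finrank ℝ V + 1 ∧ ∃ b : V → ℝ, (∀ x ∈ K, 0 < b x) ∧
      ∑ x ∈ K, b x • x ∈ UU F c) with hKK
  have hmemKK : ∀ K, K ∈ KK ↔ K ⊆ P ∧ K.card + (F c).card = finrank ℝ V + 1 ∧
      ∃ b : V → ℝ, (∀ x ∈ K, 0 < b x) ∧ ∑ x ∈ K, b x • x ∈ UU F c := by
    intro K
    rw [hKK, Finset.mem_filter, Finset.mem_powerset]
  obtain ⟨K0, hK0T, hK0c, b0, hb0, hbs0⟩ := circ_cf hX hr hF hmax hP
    (lt_of_le_of_lt (Submodule.finrank_le _) hcard) c hUc
  have hli := hX.ind (F c) (hF.sub c) hc.le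
  obtain ⟨al, hal⟩ := exists_coord hli
  -- coefficients
  have hcoef : ∀ K : {K // K ∈ KK}, ∃ b β : V → ℝ, (∀ x ∈ K.1, 0 < b x) ∧
      ∑ x ∈ F c, β x • x = ∑ x ∈ K.1, b x • x := by
    intro K
    obtain ⟨_, _, b, hb, hbs⟩ := (hmemKK _).mp K.2
    obtain ⟨β, hβ⟩ := mem_span_iff.mp hbs
    exact ⟨b, β, hb, hβ⟩
  choose b β hb hβ using hcoef
  obtain ⟨z, hz, hzg⟩ := generic_pt hF
    (fun i : {K // K ∈ KK} × {x // x ∈ F c} × {x // x ∈ F c} =>
      β i.1 i.2.2 • al i.2.1 - β i.1 i.2.1 • al i.2.2)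
  have htie : ∀ K : {K // K ∈ KK}, ∃ T ⊆ F c, T.Nonempty ∧ Rel (K.1 ∪ (F c \ T)) z ∧
      LL F ≤ LL (Function.update F c (K.1 ∪ (F c \ T))) ∧
      ∀ x ∈ T, ∀ x' ∈ T, ∃ t : ℝ, t ≠ 0 ∧ ∀ w ∈ LL F, al x w = t * al x' w := by
    intro K
    obtain ⟨hKP, hKc, _⟩ := (hmemKK _).mp K.2
    refine tie_at hX hF c hal hz (hKP.trans hP) (Finset.card_pos.mp (by omega)) (hb K) (hβ K) ?_
    intro x hx x' hx' h w hw
    have h1 := hzg (K, ⟨x, hx⟩, ⟨x', hx'⟩) (by
      change β K x' * al x z - β K x * al x' z = 0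
      linarith) w hw
    change β K x' * al x w - β K x * al x' w = 0 at h1
    linarith
  choose T hTF hTne hTrel hTLL hTt using htie
  -- the tie sets are large
  have hTc : ∀ K : {K // K ∈ KK}, finrank ℝ V - (F c).card + 1 ≤ (T K).card := by
    intro K
    obtain ⟨hKP, hKc, _⟩ := (hmemKK _).mp K.2
    have hKX : K.1 ⊆ X := fun x hx => hPX x (hP (hKP hx))
    have hd : Disjoint K.1 (F c \ T K) :=
      (hdis K.1 (hKP.trans hP)).symm.mono_right Finset.sdiff_subset
    have hcd : (K.1 ∪ (F c \ T K)).card + (T K).card = finrank ℝ V + 1 := by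
      rw [Finset.card_union_of_disjoint hd, add_assoc,
        Finset.card_sdiff_add_card_eq_card (hTF K)]
      exact hKc
    have hTpos : 0 < (T K).card := Finset.card_pos.mpr (hTne K)
    have hcle : (K.1 ∪ (F c \ T K)).card ≤ finrank ℝ V := by omega
    have hCf : Cf X (Function.update F c (K.1 ∪ (F c \ T K))) := by
      refine ⟨?_, ?_, ⟨z, ?_⟩⟩
      · intro j
        by_cases hj : j = c
        · subst hj
          rw [Function.update_self]
          exact Finset.union_subset hKX (Finset.sdiff_subset.trans (hF.sub j))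
        · rw [Function.update_of_ne hj]
          exact hF.sub j
      · have hKj : ∀ j, j ≠ c → Disjoint (K.1 ∪ (F c \ T K)) (F j) := by
          intro j hj
          rw [Finset.disjoint_union_left]
          constructor
          · rw [Finset.disjoint_left]
            intro x hx hx'
            exact (mem_pool.mp (hP (hKP hx))).2 j hx'
          · exact (hF.disj c j (fun h => hj h.symm)).mono_left Finset.sdiff_subset
        intro i j hij
        by_cases hi : i = c
        · have hj : j ≠ c := fun h => hij (hi.trans h.symm)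
          rw [hi, Function.update_self, Function.update_of_ne hj]
          exact hKj j hj
        · by_cases hj : j = c
          · rw [hj, Function.update_self, Function.update_of_ne hi]
            exact (hKj i hi).symm
          · rw [Function.update_of_ne hi, Function.update_of_ne hj]
            exact hF.disj i j hij
      · intro j
        by_cases hj : j = c
        · subst hj
          rw [Function.update_self]
          exact hTrel K
        · rw [Function.update_of_ne hj]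
          exact hz j
    have h1 := hext _ hCf (le_antisymm (hmax _ hCf) (Submodule.finrank_mono (hTLL K))) (by
      intro j
      by_cases hj : j = c
      · subst hj
        rw [Function.update_self]
        exact hcle
      · rw [Function.update_of_ne hj]
        exact hle j)
    have h2 : ∑ j, (Function.update F c (K.1 ∪ (F c \ T K)) j).card + (F c).card
        = ∑ j, (F j).card + (K.1 ∪ (F c \ T K)).card := by
      rw [← Finset.sum_erase_add _ _ (Finset.mem_univ c),
        ← Finset.sum_erase_add _ (fun j => (F j).card) (Finset.mem_univ c)]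
      have h3 : ∑ j ∈ Finset.univ.erase c, (Function.update F c (K.1 ∪ (F c \ T K)) j).card
          = ∑ j ∈ Finset.univ.erase c, (F j).card := by
        refine Finset.sum_congr rfl fun j hj => ?_
        rw [Function.update_of_ne (Finset.mem_erase.mp hj).1]
      rw [h3, Function.update_self]
      ring
    omega
  -- parallel classes
  let stt : Setoid {x // x ∈ F c} :=
    { r := fun x y => ∃ t : ℝ, t ≠ 0 ∧ ∀ w ∈ LL F, al x.1 w = t * al y.1 w
      iseqv := by
        refine ⟨fun x => ⟨1, one_ne_zero, fun w _ => by rw [one_mul]⟩, ?_, ?_⟩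
        · rintro x y ⟨t, ht, h⟩
          refine ⟨t⁻¹, inv_ne_zero ht, fun w hw => ?_⟩
          rw [h w hw, ← mul_assoc, inv_mul_cancel₀ ht, one_mul]
        · rintro x y u ⟨t, ht, h⟩ ⟨t', ht', h'⟩
          refine ⟨t * t', mul_ne_zero ht ht', fun w hw => ?_⟩
          rw [h w hw, h' w hw, mul_assoc] }
  let ρ : V → V := fun x => if h : x ∈ F c then (Quotient.out (Quotient.mk stt ⟨x, h⟩)).1 else x
  have hρdef : ∀ x (h : x ∈ F c), ρ x = (Quotient.out (Quotient.mk stt ⟨x, h⟩)).1 := by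
    intro x h
    simp only [ρ, dif_pos h]
  have hρF : ∀ x ∈ F c, ρ x ∈ F c := by
    intro x h
    rw [hρdef x h]
    exact (Quotient.out (Quotient.mk stt ⟨x, h⟩)).2
  have hρeq : ∀ x (h : x ∈ F c) y (h' : y ∈ F c), stt.r ⟨x, h⟩ ⟨y, h'⟩ → ρ x = ρ y := by
    intro x h y h' hxy
    rw [hρdef x h, hρdef y h', Quotient.sound hxy]
  have hρr : ∀ x (h : x ∈ F c), stt.r ⟨ρ x, hρF x h⟩ ⟨x, h⟩ := by
    intro x h
    have h1 : stt.r (Quotient.out (Quotient.mk stt ⟨x, h⟩)) ⟨x, h⟩ :=
      Quotient.exact (Quotient.out_eq (Quotient.mk stt ⟨x, h⟩))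
    have h2 : (⟨ρ x, hρF x h⟩ : {x // x ∈ F c}) = Quotient.out (Quotient.mk stt ⟨x, h⟩) :=
      Subtype.ext (hρdef x h)
    rw [h2]
    exact h1
  have hρρ : ∀ x ∈ F c, ρ (ρ x) = ρ x := by
    intro x h
    exact hρeq (ρ x) (hρF x h) x h (hρr x h)
  -- many classes
  have hκ : finrank ℝ (LL F) ≤ ((F c).filter (fun x => ρ x = x)).card := by
    set R := (F c).filter (fun x => ρ x = x) with hR
    let f : LL F →ₗ[ℝ] ({x // x ∈ R} → ℝ) :=
      LinearMap.pi (fun x => (al x.1) ∘ₗ (LL F).subtype)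
    have hf : Function.Injective f := by
      rw [← LinearMap.ker_eq_bot, LinearMap.ker_eq_bot']
      intro w hw
      have h1 : ∀ x ∈ F c, al x w.1 = 0 := by
        intro x hx
        have h2 : ρ x ∈ R := Finset.mem_filter.mpr ⟨hρF x hx, hρρ x hx⟩
        have h3 : al (ρ x) w.1 = 0 := congrFun hw ⟨ρ x, h2⟩
        obtain ⟨t, ht, h4⟩ := hρr x hx
        have h5 := h4 w.1 w.2
        change al (ρ x) w.1 = t * al x w.1 at h5
        rw [h3] at h5
        rcases mul_eq_zero.mp h5.symm with h6 | h6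
        · exact absurd h6 ht
        · exact h6
      obtain ⟨g, hg⟩ := mem_span_iff.mp ((Submodule.mem_iInf _).mp w.2 c : w.1 ∈ UU F c)
      apply Subtype.ext
      rw [← hg]
      apply Finset.sum_eq_zero
      intro x hx
      have h2 := h1 x hx
      rw [← hg, hal g x hx] at h2
      rw [h2, zero_smul]
    have h1 := LinearMap.finrank_le_finrank_of_injective hf
    rw [Module.finrank_fintype_fun_eq_card, Fintype.card_coe] at h1
    exact h1
  have hTρ : ∀ K : {K // K ∈ KK}, ∀ x ∈ T K, ∀ y ∈ T K, ρ x = ρ y := by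
    intro K x hx y hy
    exact hρeq x (hTF K hx) y (hTF K hy) (hTt K x hx y hy)
  refine ⟨KK, (F c).image (gl ρ), fun K => if h : K ∈ KK then (T ⟨K, h⟩).image (gl ρ) else ∅,
    ?_, ⟨K0, (hmemKK K0).mpr ⟨hK0T, hK0c, b0, hb0, hbs0⟩⟩, ?_, ?_, ?_, ?_⟩
  · intro K hK
    obtain ⟨h1, h2, _⟩ := (hmemKK K).mp hK
    exact ⟨h1, by omega⟩
  · intro K hK y hy hyK
    obtain ⟨hKP, hKc, bK, hbK, hbsK⟩ := (hmemKK K).mp hK
    have hKX : K ⊆ X := fun x hx => hPX x (hP (hKP hx))
    have hdK := hdis K (hKP.trans hP)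
    obtain ⟨K', hK's, hyK', hK'c, b', hb', hbs'⟩ := second hX (hF.sub c) hKX hc hKc hdK hbK hbsK
      (hPX y (hP hy)) ((mem_pool.mp (hP hy)).2 c) hyK
    -- the missing element
    have hcK : (K'.erase y).card + 1 = K.card := by
      rw [Finset.card_erase_add_one hyK', hK'c]
    have hsubK : K'.erase y ⊆ K := by
      intro x hx
      obtain ⟨h1, h2⟩ := Finset.mem_erase.mp hx
      exact (Finset.mem_insert.mp (hK's h2)).resolve_left h1
    obtain ⟨x, hxK, hxK'⟩ : ∃ x ∈ K, x ∉ K'.erase y := by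
      by_contra hcon
      push Not at hcon
      have := Finset.card_le_card (fun x hx => hcon x hx : K ⊆ K'.erase y)
      omega
    have hKe : K'.erase y = K.erase x := by
      apply Finset.eq_of_subset_of_card_le
      · intro w hw
        refine Finset.mem_erase.mpr ⟨?_, hsubK hw⟩
        intro h
        exact hxK' (h ▸ hw)
      · rw [Finset.card_erase_of_mem hxK]
        omega
    have hK'eq : insert y (K.erase x) = K' := by
      rw [← hKe, Finset.insert_erase hyK']
    refine ⟨x, ⟨hxK, ?_⟩, ?_⟩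
    · rw [hK'eq, hmemKK]
      refine ⟨?_, by rw [hK'c]; exact hKc, b', hb', hbs'⟩
      intro w hw
      rcases Finset.mem_insert.mp (hK's hw) with rfl | h
      · exact hy
      · exact hKP h
    · rintro x' ⟨hx'K, hx'⟩
      obtain ⟨_, _, b2, hb2, hbs2⟩ := (hmemKK _).mp hx'
      refine exch_uniq hX (hF.sub c) hKX hKc hdK hbK hbsK hyK hx'K hxK hb2 hbs2 (b2 := b') ?_ ?_
      · rw [hK'eq]; exact hb'
      · rw [hK'eq]; exact hbs'
  · have := gl_ground (ρ := ρ) (F c)
    omega
  · intro K hK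
    simp only [hK, dif_pos]
    refine ⟨Finset.image_subset_image (hTF ⟨K, hK⟩), ?_⟩
    rw [gl_card (hTρ ⟨K, hK⟩)]
    exact hTc ⟨K, hK⟩
  · intro K hK K' hK' hne
    simp only [hK, hK', dif_pos]
    obtain ⟨hKP, hKc, _⟩ := (hmemKK K).mp hK
    obtain ⟨hKP', hKc', _⟩ := (hmemKK K').mp hK'
    have hne' : (K' \ K).Nonempty := by
      rw [Finset.nonempty_iff_ne_empty]
      intro h
      rw [Finset.sdiff_eq_empty_iff_subset] at h
      exact hne (Finset.eq_of_subset_of_card_le h (by omega)).symm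
    refine gl_inter (hTρ ⟨K, hK⟩) (hTρ ⟨K', hK'⟩) (Finset.card_pos.mpr hne') ?_
    exact tie_inter hX hF c (hKP.trans hP) (hKP'.trans hP) hKc hne' (hTF ⟨K, hK⟩)
      (hTrel ⟨K, hK⟩) (hTrel ⟨K', hK'⟩)

end data

end Pool.Agent.RY
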