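import Pool.Agent.Lib_helper10.RX.Data
import Pool.Agent.Lib_helper10.RZ.Lp
import Pool.Agent.Lib_helper19.GC2.Rec

/-!
A configuration of maximal dimension with spare points contradicts the partition lemma.
-/

set_option linter.unusedSectionVars false

namespace Pool.Agent.RY

open scoped BigOperators Topology
open Module Filter Pool.Agent.KAL

/-- the partition lemma -/
def LPM : Prop :=
  ∀ (V : Type) [AddCommGroup V] [Module ℝ V] [FiniteDimensional ℝ V] (C P : Type) [Fintype C]
    [DecidableEq C] [Nonempty C] [Fintype P] [DecidableEq P] (U : C → Submodule ℝ V) (x : P → V)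
    (d : ℕ) (W : ℤ → ℕ), Rule d W →
    (∀ c, U c ≠ ⊤) → (∀ c, finrank ℝ V - finrank ℝ (U c) ≤ d) →
    (Fintype.card P + finrank ℝ V = ∑ c, (finrank ℝ V - finrank ℝ (U c)) + 1) →
    (∀ c v, (∀ i, i ≠ c → v ∈ U i) → v = 0) →
    (∀ c (T : Finset P), T.card ≤ finrank ℝ V - finrank ℝ (U c) → ∀ b : P → ℝ,
      ∑ p ∈ T, b p • x p ∈ U c → ∀ p ∈ T, b p = 0) →
    Fintype.card P ≤ W (finrank ℝ V) →
    ∃ (s : P → C) (a : P → ℝ) (u : V), (∀ p, 0 ≤ a p) ∧ u ≠ 0 ∧
      (∀ c, ∑ p with s p = c, a p • x p - u ∈ U c)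

section lp

variable {V : Type} [AddCommGroup V] [Module ℝ V] [FiniteDimensional ℝ V] {r : ℕ}

/-- no configuration of maximal dimension with few spare points -/
theorem lpm_false (hLP : LPM) {X : Finset V} (hX : Gen X) (hr : 0 < r) {F : Fin r → Finset V}
    (hF : St X F) {P' : Finset V} (hP' : P' ⊆ pool X F)
    (hcard : P'.card = finrank ℝ (MM (UU F) ⊤) + 1)
    (hmax : ∀ F' : Fin r → Finset V, Cf X F' → finrank ℝ (LL F') ≤ finrank ℝ (LL F))
    (hkD : finrank ℝ (LL F) < finrank ℝ V) {d : ℕ} {W : ℤ → ℕ} (hW : Rule d W)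
    (hd : ∀ c, finrank ℝ V - (F c).card ≤ d)
    (hm : P'.card ≤ W ((finrank ℝ V - finrank ℝ (LL F) : ℕ) : ℤ)) : False := by
  classical
  set L := LL F with hL
  set D := finrank ℝ V with hD
  set κ := finrank ℝ L with hκ
  have hPX : P' ⊆ X := fun x hx => (mem_pool.mp (hP' hx)).1
  have hLU : ∀ j, L ≤ UU F j := fun j => iInf_le _ j
  have hmem : ∀ j, j ∈ NF F → (F j).card < D := by
    intro j hj
    exact (Finset.mem_filter.mp hj).2
  have hnot : ∀ j, j ∉ NF F → UU F j = ⊤ := by
    intro j hj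
    apply hX.UU_eq_top hF
    by_contra h
    exact hj (Finset.mem_filter.mpr ⟨Finset.mem_univ _, not_le.mp h⟩)
  have hq : finrank ℝ (MM (UU F) ⊤) + D = ∑ j ∈ NF F, (D - (F j).card) + κ :=
    quot_count hX hr hF
  have hQ : finrank ℝ (V ⧸ L) + κ = D := Submodule.finrank_quotient_add_finrank L
  let U : {j // j ∈ NF F} → Submodule ℝ (V ⧸ L) := fun c => (UU F c.1).map L.mkQ
  have hUfr : ∀ c : {j // j ∈ NF F}, finrank ℝ (U c) + κ = (F c.1).card := by
    intro c
    have h1 := finrank_map_mkQ (hLU c.1)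
    have h2 := hX.finrank_UU hF c.1
    rw [min_eq_left (hmem c.1 c.2).le] at h2
    rw [← h2]
    exact h1
  have hdel : ∀ c : {j // j ∈ NF F},
      finrank ℝ (V ⧸ L) - finrank ℝ (U c) = D - (F c.1).card := by
    intro c
    have := hUfr c
    omega
  have hne : (NF F).Nonempty := by
    by_contra h
    rw [Finset.not_nonempty_iff_eq_empty] at h
    have h1 : L = ⊤ := by
      rw [hL, LL, iInf_eq_top]
      intro j
      apply hnot
      rw [h]
      exact Finset.notMem_empty _
    rw [hκ, h1, finrank_top] at hkD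
    exact lt_irrefl _ hkD
  haveI : Nonempty {j // j ∈ NF F} := ⟨⟨hne.choose, hne.choose_spec⟩⟩
  have hinj : ∀ c ∈ NF F, ∀ v, (∀ i, i ≠ c → v ∈ UU F i) → v ∈ UU F c := by
    intro c hc v hv
    exact mono_cf hX hr hF.cf hmax hP'
      (lt_of_le_of_lt (Submodule.finrank_le _) (by omega)) c (UU_ne_top hX hF (hmem c hc)) v hv
  obtain ⟨s, a, u, ha, hu0, hu⟩ := hLP (V ⧸ L) {j // j ∈ NF F} {x // x ∈ P'} U
    (fun p => L.mkQ p.1) d W hW (by
      intro c h
      have h1 := hUfr c
      rw [h, finrank_top] at h1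
      have h2 := hmem c.1 c.2
      omega) (by
      intro c
      rw [hdel c]
      exact hd c.1) (by
      rw [Fintype.card_coe, hcard]
      have h1 : ∑ c : {j // j ∈ NF F}, (finrank ℝ (V ⧸ L) - finrank ℝ (U c))
          = ∑ j ∈ NF F, (D - (F j).card) := by
        rw [← Finset.sum_coe_sort (NF F)]
        exact Finset.sum_congr rfl fun c _ => hdel c
      rw [h1]
      omega) (by
      intro c v hv
      obtain ⟨v, rfl⟩ := Submodule.mkQ_surjective _ v
      have h1 : ∀ i, i ≠ c.1 → v ∈ UU F i := by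
        intro i hi
        by_cases hiN : i ∈ NF F
        · exact mem_of_mkQ_mem (hLU i) (hv ⟨i, hiN⟩ (fun h => hi (congrArg Subtype.val h)))
        · rw [hnot i hiN]; trivial
      have h2 := hinj c.1 c.2 v h1
      rw [Submodule.mkQ_apply, Submodule.Quotient.mk_eq_zero]
      refine (Submodule.mem_iInf _).mpr fun i => ?_
      by_cases hi : i = c.1
      · rw [hi]; exact h2
      · exact h1 i hi) (by
      intro c T hT b hb p hp
      rw [hdel c] at hT
      let T' : Finset V := T.map (Function.Embedding.subtype _)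
      have hT'X : T' ⊆ X := by
        intro x hx
        obtain ⟨p, _, rfl⟩ := Finset.mem_map.mp hx
        exact hPX p.2
      have hT'card : T'.card = T.card := Finset.card_map _
      let b' : V → ℝ := fun x => if h : x ∈ P' then b ⟨x, h⟩ else 0
      have hb' : ∀ p : {x // x ∈ P'}, b' p.1 = b p := fun p => by
        simp only [b', p.2, dif_pos]
      have hsum : ∑ x ∈ T', b' x • x = ∑ p ∈ T, b p • p.1 := by
        rw [Finset.sum_map]
        exact Finset.sum_congr rfl fun p _ => by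
          rw [Function.Embedding.subtype_apply, hb' p]
      have h1 : ∑ x ∈ T', b' x • x ∈ UU F c.1 := by
        apply mem_of_mkQ_mem (hLU c.1)
        rw [hsum, map_sum]
        have h2 : ∑ p ∈ T, L.mkQ (b p • p.1) = ∑ p ∈ T, b p • L.mkQ p.1 :=
          Finset.sum_congr rfl fun p _ => by rw [map_smul]
        rw [h2]
        exact hb
      have hdj : Disjoint (F c.1) T' := by
        rw [Finset.disjoint_left]
        intro x hx hx'
        obtain ⟨p, _, rfl⟩ := Finset.mem_map.mp hx'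
        exact (mem_pool.mp (hP' p.2)).2 c.1 hx
      have hc := hmem c.1 c.2
      have h2 := hX.disj_span (hF.sub c.1) hT'X hdj (by omega)
      have h3 : ∑ x ∈ T', b' x • x ∈ Submodule.span ℝ (T' : Set V) := mem_span_iff.mpr ⟨b', rfl⟩
      have h4 := Submodule.disjoint_def.mp h2 _ h1 h3
      have h5 := coeff_zero (hX.ind T' hT'X (by omega)) b' h4 p.1
        (Finset.mem_map.mpr ⟨p, hp, rfl⟩)
      rw [← hb' p]
      exact h5) (by
      rw [Fintype.card_coe]
      have h1 : finrank ℝ (V ⧸ L) = D - κ := by omega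
      rw [h1]
      exact hm)
  obtain ⟨u0, rfl⟩ := Submodule.mkQ_surjective _ u
  let s' : V → Fin r := fun x => if h : x ∈ P' then (s ⟨x, h⟩).1 else ⟨0, hr⟩
  have hs' : ∀ p : {x // x ∈ P'}, s' p.1 = (s p).1 := fun p => by
    simp only [s', p.2, dif_pos]
  have hcls : ∀ (b : {x // x ∈ P'} → ℝ) (j : Fin r) (hj : j ∈ NF F),
      L.mkQ (∑ x ∈ P'.filter (fun x => s' x = j), (if h : x ∈ P' then b ⟨x, h⟩ else 0) • x)
        = ∑ p with s p = ⟨j, hj⟩, b p • L.mkQ p.1 := by
    intro b j hj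
    rw [Finset.sum_filter, Finset.sum_filter, map_sum, ← Finset.sum_coe_sort P']
    refine Finset.sum_congr rfl fun p _ => ?_
    rw [hs' p]
    by_cases h : s p = ⟨j, hj⟩
    · rw [if_pos h, if_pos (by rw [h]), dif_pos p.2, map_smul]
    · rw [if_neg h, if_neg (fun h' => h (Subtype.ext h')), map_zero]
  let a' : V → ℝ := fun x => if h : x ∈ P' then a ⟨x, h⟩ else 0
  have hu' : ∀ j, ∑ x ∈ P'.filter (fun x => s' x = j), a' x • x - u0 ∈ UU F j := by
    intro j
    by_cases hj : j ∈ NF F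
    · apply mem_of_mkQ_mem (hLU j)
      rw [map_sub, hcls a j hj]
      exact hu ⟨j, hj⟩
    · rw [hnot j hj]; trivial
  let F' : Fin r → Finset V := fun j => F j ∪ P'.filter (fun x => s' x = j ∧ 0 < a' x)
  have hF' : ∀ j x, x ∈ F' j ↔ x ∈ F j ∨ (x ∈ P' ∧ s' x = j ∧ 0 < a' x) := by
    intro j x
    simp only [F', Finset.mem_union, Finset.mem_filter]
  obtain ⟨hSt, huL, hLL⟩ := advance_cf hF.cf hP' s' a' (fun x hx => by
    simp only [a', hx, dif_pos]; exact ha _) u0 hu' F' hF'
  have hLeq : LL F = LL F' := Submodule.eq_of_le_of_finrank_le hLL (hmax F' hSt)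
  apply hu0
  rw [Submodule.mkQ_apply, Submodule.Quotient.mk_eq_zero, hL, hLeq]
  exact huL

end lp

end Pool.Agent.RY
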