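import Pool.Agent.Lib_helper10.RX.Conf
import Pool.Agent.Lib_helper10.RZ.Third

/-!
Tie sets of all positive circuits at one generic point.
-/

set_option linter.unusedSectionVars false

namespace Pool.Agent.RY

open scoped BigOperators Topology
open Module Filter

section glue

variable {α : Type*} [DecidableEq α]

/-- the fixed points of `ρ` are glued to one point -/
def gl (ρ : α → α) (x : α) : Option α := if ρ x = x then none else some x

lemma gl_inj {ρ : α → α} {T : Finset α} (hT : ∀ x ∈ T, ∀ y ∈ T, ρ x = ρ y) :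
    Set.InjOn (gl ρ) (T : Set α) := by
  intro x hx y hy h
  have hx' : x ∈ T := hx
  have hy' : y ∈ T := hy
  unfold gl at h
  by_cases h1 : ρ x = x
  · by_cases h2 : ρ y = y
    · rw [← h1, ← h2]; exact hT x hx' y hy'
    · rw [if_pos h1, if_neg h2] at h
      exact absurd h (by simp)
  · by_cases h2 : ρ y = y
    · rw [if_neg h1, if_pos h2] at h
      exact absurd h (by simp)
    · rw [if_neg h1, if_neg h2] at h
      exact Option.some_injective _ h

lemma gl_card {ρ : α → α} {T : Finset α} (hT : ∀ x ∈ T, ∀ y ∈ T, ρ x = ρ y) :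
    (T.image (gl ρ)).card = T.card := Finset.card_image_of_injOn (gl_inj hT)

lemma gl_ground {ρ : α → α} (F : Finset α) :
    (F.image (gl ρ)).card + (F.filter (fun x => ρ x = x)).card ≤ F.card + 1 := by
  have h1 : F.image (gl ρ) ⊆ insert none ((F.filter (fun x => ¬ ρ x = x)).image some) := by
    intro y hy
    obtain ⟨x, hx, rfl⟩ := Finset.mem_image.mp hy
    unfold gl
    by_cases h : ρ x = x
    · rw [if_pos h]; exact Finset.mem_insert_self _ _
    · rw [if_neg h]
      exact Finset.mem_insert_of_mem (Finset.mem_image_of_mem _ (Finset.mem_filter.mpr ⟨hx, h⟩))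
  have h2 := Finset.card_le_card h1
  have h3 := Finset.card_insert_le (none : Option α)
    ((F.filter (fun x => ¬ ρ x = x)).image some)
  have h4 : ((F.filter (fun x => ¬ ρ x = x)).image some).card
      ≤ (F.filter (fun x => ¬ ρ x = x)).card := Finset.card_image_le
  have h5 := Finset.card_filter_add_card_filter_not (s := F) (fun x => ρ x = x)
  omega

lemma gl_inter {ρ : α → α} {T T' : Finset α} (hT : ∀ x ∈ T, ∀ y ∈ T, ρ x = ρ y)
    (hT' : ∀ x ∈ T', ∀ y ∈ T', ρ x = ρ y) {m : ℕ} (hm : 1 ≤ m) (h : (T ∩ T').card ≤ m) :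
    (T.image (gl ρ) ∩ T'.image (gl ρ)).card ≤ m := by
  by_cases hx : ∃ x ∈ T, ∃ y ∈ T', ρ x = ρ y
  · obtain ⟨x, hx, y, hy, hxy⟩ := hx
    have hU : ∀ u ∈ T ∪ T', ∀ v ∈ T ∪ T', ρ u = ρ v := by
      have key : ∀ u ∈ T ∪ T', ρ u = ρ x := by
        intro u hu
        rcases Finset.mem_union.mp hu with h1 | h1
        · exact hT u h1 x hx
        · rw [hxy]; exact hT' u h1 y hy
      intro u hu v hv
      rw [key u hu, key v hv]
    have hinj := gl_inj hU
    have h1 : T.image (gl ρ) ∩ T'.image (gl ρ) ⊆ (T ∩ T').image (gl ρ) := by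
      intro z hz
      obtain ⟨h1, h2⟩ := Finset.mem_inter.mp hz
      obtain ⟨u, hu, rfl⟩ := Finset.mem_image.mp h1
      obtain ⟨v, hv, huv⟩ := Finset.mem_image.mp h2
      have h3 : v = u := hinj (Finset.mem_coe.mpr (Finset.mem_union_right _ hv))
        (Finset.mem_coe.mpr (Finset.mem_union_left _ hu)) huv
      rw [h3] at hv
      exact Finset.mem_image_of_mem _ (Finset.mem_inter.mpr ⟨hu, hv⟩)
    exact (Finset.card_le_card h1).trans (Finset.card_image_le.trans h)
  · push Not at hx
    have h1 : T.image (gl ρ) ∩ T'.image (gl ρ) ⊆ {none} := by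
      intro z hz
      obtain ⟨h1, h2⟩ := Finset.mem_inter.mp hz
      obtain ⟨u, hu, rfl⟩ := Finset.mem_image.mp h1
      obtain ⟨v, hv, huv⟩ := Finset.mem_image.mp h2
      rw [Finset.mem_singleton]
      unfold gl at huv ⊢
      by_cases h3 : ρ u = u
      · rw [if_pos h3]
      · rw [if_neg h3] at huv ⊢
        by_cases h4 : ρ v = v
        · rw [if_pos h4] at huv; exact huv.symm
        · rw [if_neg h4] at huv
          have h5 : v = u := Option.some_injective _ huv
          exact absurd (by rw [h5]) (hx u hu v hv)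
    have h2 := Finset.card_le_card h1
    rw [Finset.card_singleton] at h2
    omega

end glue

section ties

variable {V : Type*} [AddCommGroup V] [Module ℝ V] [FiniteDimensional ℝ V] {r : ℕ}

/-- thinning, for configurations -/
theorem thin_cf {X : Finset V} {F : Fin r → Finset V} (hF : Cf X F) :
    ∃ G : Fin r → Finset V, Cf X G ∧ LL G = LL F ∧ ∀ j, (G j).card ≤ finrank ℝ V := by
  classical
  obtain ⟨z0, hz0⟩ := hF.pos
  let I := {t : (j : Fin r) × {B // B ∈ (F j).powerset} //
    ¬ (LL F ≤ Submodule.span ℝ ((t.2.1 : Finset V) : Set V))}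
  obtain ⟨v, hv⟩ := Submodule.exists_forall_notMem_of_forall_ne_top
    (fun t : I => (Submodule.span ℝ ((t.1.2.1 : Finset V) : Set V)).comap (LL F).subtype) (by
      intro t h
      apply t.2
      intro w hw
      have : (⟨w, hw⟩ : LL F) ∈ (⊤ : Submodule ℝ (LL F)) := trivial
      rw [← h] at this
      exact this)
  have hvj : ∀ j, (v : V) ∈ UU F j := fun j => (Submodule.mem_iInf _).mp v.2 j
  have hev1 : ∀ᶠ ε in 𝓝[>] (0:ℝ), ∀ j, Rel (F j) (z0 + ε • (v : V)) :=
    eventually_all.mpr fun j => ev_rel (hz0 j) (hvj j)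
  have hev2 : ∀ᶠ ε in 𝓝[>] (0:ℝ), ∀ t : I,
      z0 + ε • (v : V) ∉ Submodule.span ℝ ((t.1.2.1 : Finset V) : Set V) :=
    eventually_all.mpr fun t => ev_notMem _ _ _ (fun h => hv t h)
  obtain ⟨ε, hε1, hε2⟩ := (hev1.and hev2).exists
  have h1 : ∀ j, ∃ B ⊆ F j, LinearIndependent ℝ (fun x : {x // x ∈ B} => (x : V)) ∧
      Rel B (z0 + ε • (v : V)) := fun j => carath _ (F j) _ rfl (hε1 j)
  choose G hG hGli hGr using h1
  refine ⟨G, ⟨fun j => (hG j).trans (hF.sub j), fun i j hij =>
    (hF.disj i j hij).mono (hG i) (hG j), ⟨_, hGr⟩⟩, ?_, ?_⟩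
  · apply le_antisymm
    · exact iInf_mono fun j => Submodule.span_mono (by exact_mod_cast hG j)
    · apply le_iInf
      intro j
      by_contra hcon
      exact hε2 ⟨⟨j, ⟨G j, Finset.mem_powerset.mpr (hG j)⟩⟩, hcon⟩ (hGr j).mem_span
  · intro j
    have := (hGli j).fintype_card_le_finrank
    rwa [Fintype.card_coe] at this

/-- a point of all the open cones which is generic for finitely many functionals -/
lemma generic_pt {X : Finset V} {F : Fin r → Finset V} (hF : Cf X F) {ι : Type*} [Finite ι]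
    (g : ι → Dual ℝ V) :
    ∃ z, (∀ j, Rel (F j) z) ∧ ∀ i, g i z = 0 → ∀ w ∈ LL F, g i w = 0 := by
  classical
  let I := {i : ι // ∃ v ∈ LL F, g i v ≠ 0}
  obtain ⟨v, hvL, hv⟩ := Dual.exists_forall_mem_ne_zero_of_forall_exists (LL F)
    (fun t : I => g t.1) (fun t => t.2)
  obtain ⟨z0, hz0⟩ := hF.pos
  have hvj : ∀ j, v ∈ UU F j := fun j => (Submodule.mem_iInf _).mp hvL j
  have hev1 : ∀ᶠ ε in 𝓝[>] (0:ℝ), ∀ j, Rel (F j) (z0 + ε • v) :=
    eventually_all.mpr fun j => ev_rel (hz0 j) (hvj j)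
  have hev2 : ∀ᶠ ε in 𝓝[>] (0:ℝ), ∀ t : I, z0 + ε • v ∉ LinearMap.ker (g t.1) :=
    eventually_all.mpr fun t => ev_notMem _ _ _ (fun h => hv t h)
  obtain ⟨ε, hε1, hε2⟩ := (hev1.and hev2).exists
  refine ⟨z0 + ε • v, hε1, fun i hi w hw => ?_⟩
  by_contra hcon
  exact hε2 ⟨i, ⟨w, hw, hcon⟩⟩ hi

open Classical in
/-- the tie set of one positive circuit at a generic point -/
lemma tie_at {X : Finset V} (hX : Gen X) {F : Fin r → Finset V} (hF : Cf X F) (c : Fin r)
    {al : V → Dual ℝ V} (hal : ∀ (β : V → ℝ), ∀ x ∈ F c, al x (∑ y ∈ F c, β y • y) = β x)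
    {z : V} (hz : ∀ j, Rel (F j) z) {K : Finset V} (hK : K ⊆ pool X F) (hKne : K.Nonempty)
    {b β : V → ℝ} (hb : ∀ x ∈ K, 0 < b x) (hβ : ∑ x ∈ F c, β x • x = ∑ x ∈ K, b x • x)
    (hgen : ∀ x ∈ F c, ∀ x' ∈ F c, β x' * al x z = β x * al x' z →
      ∀ w ∈ LL F, β x' * al x w = β x * al x' w) :
    ∃ T ⊆ F c, T.Nonempty ∧ Rel (K ∪ (F c \ T)) z ∧
      LL F ≤ LL (Function.update F c (K ∪ (F c \ T))) ∧
      ∀ x ∈ T, ∀ x' ∈ T, ∃ t : ℝ, t ≠ 0 ∧ ∀ w ∈ LL F, al x w = t * al x' w := by
  have hKX : K ⊆ X := fun x hx => (mem_pool.mp (hK hx)).1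
  have hdisjK : Disjoint K (F c) := by
    rw [Finset.disjoint_left]
    intro x hx hx'
    exact (mem_pool.mp (hK hx)).2 c hx'
  set eK := ∑ x ∈ K, b x • x with heK
  have hrep : ∀ v ∈ UU F c, v = ∑ x ∈ F c, al x v • x := by
    intro v hv
    obtain ⟨g, rfl⟩ := mem_span_iff.mp hv
    exact Finset.sum_congr rfl fun x hx => by rw [hal g x hx]
  obtain ⟨l, hl⟩ := hX.acyc
  obtain ⟨y0, hy0, hy0'⟩ : ∃ x ∈ F c, 0 < β x := by
    by_contra hcon
    push Not at hcon
    have h1 : l eK ≤ 0 := by
      rw [← hβ, map_sum]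
      apply Finset.sum_nonpos
      intro x hx
      rw [map_smul, smul_eq_mul]
      exact mul_nonpos_of_nonpos_of_nonneg (hcon x hx) (hl x (hF.sub c hx)).le
    have h2 : 0 < l eK := by
      rw [heK, map_sum]
      apply Finset.sum_pos _ hKne
      intro x hx
      rw [map_smul, smul_eq_mul]
      exact mul_pos (hb x hx) (hl x (hKX hx))
    linarith
  have hzpos : ∀ x ∈ F c, 0 < al x z := by
    obtain ⟨α, hα, hαz⟩ := hz c
    intro x hx
    rw [← hαz, hal α x hx]
    exact hα x hx
  have hzc : z ∈ UU F c := (hz c).mem_span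
  obtain ⟨x0, hx0, hmin⟩ := Finset.exists_min_image ((F c).filter (fun x => 0 < β x))
    (fun x => al x z / β x) ⟨y0, Finset.mem_filter.mpr ⟨hy0, hy0'⟩⟩
  obtain ⟨hx0F, hx0β⟩ := Finset.mem_filter.mp hx0
  set s := al x0 z / β x0 with hs
  have hspos : 0 < s := div_pos (hzpos x0 hx0F) hx0β
  set T := (F c).filter (fun x => 0 < β x ∧ al x z = s * β x) with hT
  have hTF : T ⊆ F c := Finset.filter_subset _ _
  have hx0T : x0 ∈ T := by
    rw [hT, Finset.mem_filter]
    refine ⟨hx0F, hx0β, ?_⟩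
    rw [hs]
    field_simp
  have hpos : ∀ x ∈ F c \ T, 0 < al x z - s * β x := by
    intro x hx
    obtain ⟨h1, h2⟩ := Finset.mem_sdiff.mp hx
    by_cases h3 : 0 < β x
    · have h4 := hmin x (Finset.mem_filter.mpr ⟨h1, h3⟩)
      have h5 : s * β x ≤ al x z := by
        rwa [le_div_iff₀ h3] at h4
      rcases eq_or_lt_of_le h5 with h6 | h6
      · exact absurd (Finset.mem_filter.mpr ⟨h1, h3, h6.symm⟩) h2
      · linarith
    · have h4 : s * β x ≤ 0 := mul_nonpos_of_nonneg_of_nonpos hspos.le (not_lt.mp h3)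
      linarith [hzpos x h1]
  have hdis2 : Disjoint K (F c \ T) := hdisjK.mono_right Finset.sdiff_subset
  -- proportionality on the tie set
  have hprop : ∀ x ∈ T, ∀ x' ∈ T, ∀ w ∈ LL F, β x' * al x w = β x * al x' w := by
    intro x hx x' hx' w hw
    have hx1 := Finset.mem_filter.mp hx
    have hx2 := Finset.mem_filter.mp hx'
    refine hgen x hx1.1 x' hx2.1 ?_ w hw
    rw [hx1.2.2, hx2.2.2]
    ring
  refine ⟨T, hTF, ⟨x0, hx0T⟩, ?_, ?_, ?_⟩
  · refine ⟨fun x => if x ∈ K then s * b x else al x z - s * β x, ?_, ?_⟩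
    · intro x hx
      by_cases h1 : x ∈ K
      · simp only [h1, if_true]
        exact mul_pos hspos (hb x h1)
      · simp only [h1, if_false]
        exact hpos x ((Finset.mem_union.mp hx).resolve_left h1)
    · rw [Finset.sum_union hdis2]
      have e1 : ∑ x ∈ K, (if x ∈ K then s * b x else al x z - s * β x) • x = s • eK := by
        rw [heK, Finset.smul_sum]
        exact Finset.sum_congr rfl fun x hx => by rw [if_pos hx, mul_smul]
      have e2 : ∑ x ∈ F c \ T, (if x ∈ K then s * b x else al x z - s * β x) • x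
          = ∑ x ∈ F c, (al x z - s * β x) • x := by
        have e3 : ∑ x ∈ F c \ T, (if x ∈ K then s * b x else al x z - s * β x) • x
            = ∑ x ∈ F c \ T, (al x z - s * β x) • x :=
          Finset.sum_congr rfl fun x hx => by
            rw [if_neg (fun h => (Finset.disjoint_left.mp hdis2) h hx)]
        rw [e3]
        apply Finset.sum_subset Finset.sdiff_subset
        intro x hx hx'
        have h1 : x ∈ T := by
          by_contra h2
          exact hx' (Finset.mem_sdiff.mpr ⟨hx, h2⟩)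
        rw [hT, Finset.mem_filter] at h1
        rw [h1.2.2, sub_self, zero_smul]
      rw [e1, e2]
      simp only [sub_smul, mul_smul, Finset.sum_sub_distrib]
      rw [← hrep z hzc, ← Finset.smul_sum, hβ]
      abel
  · intro w hw
    have hwj : ∀ j, w ∈ UU F j := fun j => (Submodule.mem_iInf _).mp hw j
    rw [LL, Submodule.mem_iInf]
    intro j
    by_cases hj : j = c
    · subst hj
      change w ∈ Submodule.span ℝ ((Function.update F j (K ∪ (F j \ T)) j : Finset V) : Set V)
      rw [Function.update_self]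
      have h1 : ∀ x ∈ T, al x w = (al x0 w / β x0) * β x := by
        intro x hx
        have h2 := hprop x hx x0 hx0T w hw
        field_simp
        linarith
      set θ := al x0 w / β x0 with hθ
      have h2 : w = ∑ x ∈ F j \ T, al x w • x + θ • (eK - ∑ x ∈ F j \ T, β x • x) := by
        have e1 : ∑ x ∈ F j \ T, al x w • x + ∑ x ∈ T, al x w • x = ∑ x ∈ F j, al x w • x :=
          Finset.sum_sdiff hTF
        have e2 : ∑ x ∈ F j \ T, β x • x + ∑ x ∈ T, β x • x = ∑ x ∈ F j, β x • x :=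
          Finset.sum_sdiff hTF
        have e3 : ∑ x ∈ T, al x w • x = θ • ∑ x ∈ T, β x • x := by
          rw [Finset.smul_sum]
          exact Finset.sum_congr rfl fun x hx => by rw [h1 x hx, mul_smul]
        have e4 : eK - ∑ x ∈ F j \ T, β x • x = ∑ x ∈ T, β x • x := by
          rw [← hβ, ← e2]; abel
        rw [e4, ← e3, e1]
        exact hrep w (hwj j)
      rw [h2]
      have hm : ∀ x ∈ F j \ T, x ∈ Submodule.span ℝ ((K ∪ (F j \ T) : Finset V) : Set V) :=
        fun x hx => Submodule.subset_span (Finset.mem_union_right _ hx)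
      refine Submodule.add_mem _ (Submodule.sum_mem _ fun x hx => Submodule.smul_mem _ _ (hm x hx))
        (Submodule.smul_mem _ _ (Submodule.sub_mem _ ?_ (Submodule.sum_mem _ fun x hx =>
          Submodule.smul_mem _ _ (hm x hx))))
      rw [heK]
      exact Submodule.sum_mem _ fun x hx => Submodule.smul_mem _ _
        (Submodule.subset_span (Finset.mem_union_left _ hx))
    · change w ∈ Submodule.span ℝ ((Function.update F c (K ∪ (F c \ T)) j : Finset V) : Set V)
      rw [Function.update_of_ne hj]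
      exact hwj j
  · intro x hx x' hx'
    have hx1 := (Finset.mem_filter.mp hx).2.1
    have hx2 := (Finset.mem_filter.mp hx').2.1
    refine ⟨β x / β x', (div_pos hx1 hx2).ne', fun w hw => ?_⟩
    have h := hprop x hx x' hx' w hw
    field_simp
    linarith

open Classical in
/-- two supports of the same point have many elements -/
lemma tie_inter {X : Finset V} (hX : Gen X) {F : Fin r → Finset V} (hF : Cf X F) (c : Fin r)
    {z : V} {K K' T T' : Finset V} (hK : K ⊆ pool X F) (hK' : K' ⊆ pool X F)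
    (hKc : K.card + (F c).card = finrank ℝ V + 1) (hne : (K' \ K).Nonempty)
    (hT : T ⊆ F c) (h1 : Rel (K ∪ (F c \ T)) z) (h2 : Rel (K' ∪ (F c \ T')) z) :
    (T ∩ T').card ≤ (K' \ K).card := by
  by_contra hcon
  push Not at hcon
  obtain ⟨y, hy⟩ := hne
  obtain ⟨hyK', hyK⟩ := Finset.mem_sdiff.mp hy
  have hPX : ∀ x ∈ pool X F, x ∈ X := fun x hx => (mem_pool.mp hx).1
  set G := (K ∪ K') ∪ (F c \ (T ∩ T')) with hG
  have hG1 : K ∪ (F c \ T) ⊆ G := by
    intro x hx
    rcases Finset.mem_union.mp hx with h | h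
    · exact Finset.mem_union_left _ (Finset.mem_union_left _ h)
    · obtain ⟨h1, h2⟩ := Finset.mem_sdiff.mp h
      exact Finset.mem_union_right _ (Finset.mem_sdiff.mpr
        ⟨h1, fun h3 => h2 (Finset.mem_inter.mp h3).1⟩)
  have hG2 : K' ∪ (F c \ T') ⊆ G := by
    intro x hx
    rcases Finset.mem_union.mp hx with h | h
    · exact Finset.mem_union_left _ (Finset.mem_union_right _ h)
    · obtain ⟨h1, h2⟩ := Finset.mem_sdiff.mp h
      exact Finset.mem_union_right _ (Finset.mem_sdiff.mpr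
        ⟨h1, fun h3 => h2 (Finset.mem_inter.mp h3).2⟩)
  have hGX : G ⊆ X := by
    intro x hx
    rcases Finset.mem_union.mp hx with h | h
    · rcases Finset.mem_union.mp h with h | h
      · exact hPX _ (hK h)
      · exact hPX _ (hK' h)
    · exact hF.sub c (Finset.mem_sdiff.mp h).1
  have hGc : G.card ≤ finrank ℝ V := by
    have h1 : G.card ≤ (K ∪ K').card + (F c \ (T ∩ T')).card := Finset.card_union_le _ _
    have h2 : (K ∪ K').card = K.card + (K' \ K).card := by
      rw [← Finset.union_sdiff_self_eq_union, Finset.card_union_of_disjoint Finset.disjoint_sdiff]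
    have h3 : (F c \ (T ∩ T')).card + (T ∩ T').card = (F c).card :=
      Finset.card_sdiff_add_card_eq_card (Finset.inter_subset_left.trans hT)
    omega
  obtain ⟨α1, hα1, hz1⟩ := h1
  obtain ⟨α2, hα2, hz2⟩ := h2
  have h1 := coeff_zero (hX.ind G hGX hGc)
    (fun x => (if x ∈ K ∪ (F c \ T) then α1 x else 0)
      - (if x ∈ K' ∪ (F c \ T') then α2 x else 0)) (by
    simp only [sub_smul, Finset.sum_sub_distrib, ite_smul, zero_smul]
    rw [← Finset.sum_filter, ← Finset.sum_filter]
    have e1 : G.filter (fun x => x ∈ K ∪ (F c \ T)) = K ∪ (F c \ T) := by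
      ext x
      rw [Finset.mem_filter]
      exact ⟨fun h => h.2, fun h => ⟨hG1 h, h⟩⟩
    have e2 : G.filter (fun x => x ∈ K' ∪ (F c \ T')) = K' ∪ (F c \ T') := by
      ext x
      rw [Finset.mem_filter]
      exact ⟨fun h => h.2, fun h => ⟨hG2 h, h⟩⟩
    rw [e1, e2, hz1, hz2, sub_self]) y (Finset.mem_union_left _ (Finset.mem_union_right _ hyK'))
  have hy1 : y ∉ K ∪ (F c \ T) := by
    intro h
    rcases Finset.mem_union.mp h with h | h
    · exact hyK h
    · exact (mem_pool.mp (hK' hyK')).2 c (Finset.mem_sdiff.mp h).1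
  have hy2 : y ∈ K' ∪ (F c \ T') := Finset.mem_union_left _ hyK'
  simp only [hy1, hy2, if_false, if_true, zero_sub, neg_eq_zero] at h1
  exact (hα2 y hy2).ne' h1

end ties

end Pool.Agent.RY
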